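import Pool.Agent.Q93.Asym.Compact

/-!
No injective compact operator on an infinite-dimensional complex Hilbert space is the
`L`-asymptotic limit of a power bounded operator, for any Banach limit `L`.
-/

namespace Pool.Agent.Results.MP_f651fd_an.NoInjectiveCompact

open Q93.Asym
open scoped BoundedContinuousFunction

/-- **Let `H` be an infinite-dimensional complex Hilbert space, `L` a Banach limit, and `A` the
`L`-asymptotic limit of a power bounded operator `T` on `H`. Then `A` is not both compact and
injective.** -/
theorem result (H : Type*) [NormedAddCommGroup H] [InnerProductSpace ℂ H] [CompleteSpace H]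
    (hinf : ¬ FiniteDimensional ℂ H) (L : (ℕ →ᵇ ℂ) →ₗ[ℂ] ℂ) (hL : IsBanachLimit L)
    (T : H →L[ℂ] H) (hT : PowerBounded T) (A : H →L[ℂ] H) (hA : IsAsymptoticLimit L T A) :
    ¬ (IsCompactOperator A ∧ Function.Injective A) :=
  fun h => hinf (finiteDimensional_of_injective hL hT hA h.1 h.2)

end Pool.Agent.Results.MP_f651fd_an.NoInjectiveCompact
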